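import Pool.Agent.W128.VA.Stm

/-!
Project VA (helper128), part PDER: derivatives of the polynomials `P`.
-/

set_option autoImplicit false

namespace Pool.Agent.W977.VA.PDer

open Pool.Agent.W128.VA
open Finset

/-- apply a derivation to the coefficients -/
noncomputable def Dl (δ : Derivation ℂ R0 R0) (f : PowerSeries R0) : PowerSeries R0 :=
  PowerSeries.mk fun n => δ (PowerSeries.coeff n f)

theorem coeff_Dl (δ : Derivation ℂ R0 R0) (f : PowerSeries R0) (n : ℕ) :
    PowerSeries.coeff n (Dl δ f) = δ (PowerSeries.coeff n f) := by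
  simp [Dl]

theorem Dl_mul (δ : Derivation ℂ R0 R0) (f g : PowerSeries R0) :
    Dl δ (f * g) = f * Dl δ g + Dl δ f * g := by
  ext1 n
  rw [coeff_Dl, PowerSeries.coeff_mul, map_add, PowerSeries.coeff_mul, PowerSeries.coeff_mul,
    map_sum, ← Finset.sum_add_distrib]
  refine Finset.sum_congr rfl fun p _ => ?_
  rw [coeff_Dl, coeff_Dl, Derivation.leibniz, smul_eq_mul, smul_eq_mul,
    mul_comm (PowerSeries.coeff p.2 g)]

theorem Dl_der (δ : Derivation ℂ R0 R0) (f : PowerSeries R0) :
    Dl δ (PowerSeries.derivative R0 f) = PowerSeries.derivative R0 (Dl δ f) := by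
  ext1 n
  rw [coeff_Dl, PowerSeries.coeff_derivative, PowerSeries.coeff_derivative, coeff_Dl,
    Derivation.leibniz]
  have : δ ((n : R0) + 1) = 0 := by
    rw [map_add, Derivation.map_natCast, Derivation.map_one_eq_zero, add_zero]
  rw [this, smul_zero, zero_add, smul_eq_mul, mul_comm]

theorem Dl_C (δ : Derivation ℂ R0 R0) (r : ℂ) :
    Dl δ (PowerSeries.C (MvPolynomial.C r)) = 0 := by
  ext1 n
  rw [coeff_Dl, PowerSeries.coeff_C]
  split_ifs
  · have : δ (MvPolynomial.C r) = 0 := by
      have := δ.map_algebraMap r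
      exact this
    simp [this]
  · simp

theorem uniq (c G : PowerSeries R0) (h : PowerSeries.derivative R0 G = c * G)
    (h0 : PowerSeries.coeff 0 G = 0) : G = 0 := by
  have key : ∀ n : ℕ, PowerSeries.coeff n G = 0 := by
    intro n
    induction n using Nat.strong_induction_on with
    | _ n ih =>
      cases n with
      | zero => exact h0
      | succ n =>
        have h1 := congrArg (PowerSeries.coeff n) h
        rw [PowerSeries.coeff_derivative, PowerSeries.coeff_mul] at h1
        rw [Finset.sum_eq_zero] at h1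
        · rcases mul_eq_zero.1 h1 with h2 | h2
          · exact h2
          · exact absurd h2 (by exact_mod_cast Nat.succ_ne_zero n)
        · intro p hp
          have hp' : p.1 + p.2 = n := Finset.HasAntidiagonal.mem_antidiagonal.1 hp
          rw [ih p.2 (by omega), mul_zero]
  ext1 n
  rw [key, map_zero]

/-- the generating functions -/
noncomputable def A (σ : ℤ) : PowerSeries R0 := PowerSeries.mk (P σ)

noncomputable def X1 : PowerSeries R0 := PowerSeries.mk fun i => MvPolynomial.X i

noncomputable def s (σ : ℤ) : PowerSeries R0 := PowerSeries.C (MvPolynomial.C (σ : ℂ))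

theorem coeff_C_mul' (r : ℂ) (f : PowerSeries R0) (n : ℕ) :
    PowerSeries.coeff n (PowerSeries.C (MvPolynomial.C r) * f) = r • PowerSeries.coeff n f := by
  rw [PowerSeries.coeff_C_mul, MvPolynomial.C_mul']

theorem der_A (σ : ℤ) : PowerSeries.derivative R0 (A σ) = s σ * X1 * A σ := by
  ext1 n
  rw [PowerSeries.coeff_derivative, mul_assoc, s, coeff_C_mul', A, PowerSeries.coeff_mk,
    PowerSeries.coeff_mul]
  have h1 := P_rec σ n
  have h2 : P σ (n + 1) * ((n : R0) + 1) = ((n : ℂ) + 1) • P σ (n + 1) := by
    rw [← MvPolynomial.C_mul', map_add, map_natCast, map_one, mul_comm]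
  rw [h2, h1]
  congr 1
  rw [Finset.Nat.sum_antidiagonal_eq_sum_range_succ_mk]
  refine Finset.sum_congr rfl fun i _ => ?_
  simp [X1]

theorem main : S_PDER := by
  intro σ a
  have hs : ∀ δ : Derivation ℂ R0 R0, Dl δ (s σ) = 0 := fun δ => Dl_C δ _
  have hds : PowerSeries.derivative R0 (s σ) = 0 := by
    unfold s
    exact PowerSeries.derivative_C
  refine ⟨?_, ?_⟩
  · intro i
    have hX1 : Dl (MvPolynomial.pderiv i) X1 = PowerSeries.X ^ i := by
      ext1 n
      rw [coeff_Dl, X1, PowerSeries.coeff_mk, MvPolynomial.pderiv_X, PowerSeries.coeff_X_pow,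
        Pi.single_apply]
    set r : PowerSeries R0 := PowerSeries.C (MvPolynomial.C ((σ : ℂ) / ((i : ℂ) + 1))) with hr
    have hri : r * ((i : PowerSeries R0) + 1) = s σ := by
      have h1 : ((i : PowerSeries R0) + 1) = PowerSeries.C (MvPolynomial.C ((i : ℂ) + 1)) := by
        simp
      have h2 : ((i : ℂ) + 1) ≠ 0 := by exact_mod_cast Nat.succ_ne_zero i
      rw [h1, hr, ← map_mul, ← map_mul, div_mul_cancel₀ _ h2]
      rfl
    have hdr : PowerSeries.derivative R0 r = 0 := PowerSeries.derivative_C
    have hG : Dl (MvPolynomial.pderiv i) (A σ) - r * (PowerSeries.X ^ (i + 1) * A σ) = 0 := by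
      refine uniq (s σ * X1) _ ?_ ?_
      · have e1 : PowerSeries.derivative R0 (Dl (MvPolynomial.pderiv i) (A σ)) =
            s σ * (X1 * Dl (MvPolynomial.pderiv i) (A σ) + PowerSeries.X ^ i * A σ) := by
          rw [← Dl_der, der_A, mul_assoc, Dl_mul, Dl_mul, hs, hX1]
          ring
        have e2 : PowerSeries.derivative R0 (r * (PowerSeries.X ^ (i + 1) * A σ)) =
            r * ((i + 1 : PowerSeries R0) * PowerSeries.X ^ i * A σ +
              PowerSeries.X ^ (i + 1) * (s σ * X1 * A σ)) := by
          rw [Derivation.leibniz, hdr, Derivation.leibniz, Derivation.leibniz_pow,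
            PowerSeries.derivative_X, der_A]
          simp only [smul_eq_mul, add_zero, nsmul_eq_mul]
          push_cast
          ring
        rw [map_sub, e1, e2]
        linear_combination (PowerSeries.X ^ i * A σ) * (-hri)
      · rw [map_sub, coeff_Dl, hr, coeff_C_mul', PowerSeries.coeff_X_pow_mul', A,
          PowerSeries.coeff_mk, P_zero]
        simp
    have h1 := congrArg (PowerSeries.coeff a) (sub_eq_zero.1 hG)
    rw [coeff_Dl, hr, coeff_C_mul', PowerSeries.coeff_X_pow_mul'] at h1
    simp only [A, PowerSeries.coeff_mk] at h1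
    rw [h1]
    congr 1
    unfold PZ
    by_cases h : i + 1 ≤ a
    · have h' : (0 : ℤ) ≤ (a : ℤ) - (i + 1) := by omega
      rw [if_pos h, if_pos h']
      congr 1
      omega
    · have h' : ¬ (0 : ℤ) ≤ (a : ℤ) - (i + 1) := by omega
      rw [if_neg h, if_neg h']
  · set δ : Derivation ℂ R0 R0 := MvPolynomial.mkDerivation ℂ fun i : ℕ =>
      (((i : ℂ) + 1) • (MvPolynomial.X (i + 1) : R0)) with hδ
    have hD : ∀ p : R0, D p = δ p := fun p => rfl
    have hX1 : Dl δ X1 = PowerSeries.derivative R0 X1 := by
      ext1 n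
      rw [coeff_Dl, PowerSeries.coeff_derivative, X1, PowerSeries.coeff_mk, PowerSeries.coeff_mk,
        hδ, MvPolynomial.mkDerivation_X, ← MvPolynomial.C_mul', map_add, map_natCast, map_one,
        mul_comm]
    set x : PowerSeries R0 := PowerSeries.C (MvPolynomial.X 0) with hx
    have hdx : PowerSeries.derivative R0 x = 0 := PowerSeries.derivative_C
    have hG : Dl δ (A σ) - (PowerSeries.derivative R0 (A σ) - s σ * (x * A σ)) = 0 := by
      refine uniq (s σ * X1) _ ?_ ?_
      · have e1 : PowerSeries.derivative R0 (Dl δ (A σ)) =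
            s σ * (X1 * Dl δ (A σ) + PowerSeries.derivative R0 X1 * A σ) := by
          rw [← Dl_der, der_A, mul_assoc, Dl_mul, Dl_mul, hs, hX1]
          ring
        have e2 : PowerSeries.derivative R0 (PowerSeries.derivative R0 (A σ)) =
            s σ * (X1 * PowerSeries.derivative R0 (A σ) + PowerSeries.derivative R0 X1 * A σ) := by
          conv_lhs => rw [der_A σ, mul_assoc, Derivation.leibniz, hds, Derivation.leibniz]
          simp only [smul_eq_mul, smul_zero, add_zero, mul_zero]
          ring
        have e3 : PowerSeries.derivative R0 (s σ * (x * A σ)) =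
            s σ * (x * PowerSeries.derivative R0 (A σ)) := by
          rw [Derivation.leibniz, hds, Derivation.leibniz, hdx]
          simp only [smul_eq_mul, smul_zero, add_zero, mul_zero]
        rw [map_sub, map_sub, e1, e2, e3]
        have e4 := der_A σ
        linear_combination (s σ * x) * e4
      · have h1 := P_rec σ 0
        simp only [zero_add, Finset.range_one, Finset.sum_singleton, Nat.sub_zero, P_zero,
          mul_one, Nat.cast_zero, one_smul] at h1
        rw [map_sub, map_sub, coeff_Dl, PowerSeries.coeff_derivative, s, coeff_C_mul', hx,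
          PowerSeries.coeff_C_mul]
        simp [A, P_zero, h1]
    have h1 := congrArg (PowerSeries.coeff a) (sub_eq_zero.1 hG)
    rw [coeff_Dl, map_sub, PowerSeries.coeff_derivative, s, coeff_C_mul', hx,
      PowerSeries.coeff_C_mul] at h1
    simp only [A, PowerSeries.coeff_mk] at h1
    rw [hD, h1]
    congr 1
    rw [← MvPolynomial.C_mul', map_add, map_natCast, map_one, mul_comm]

end Pool.Agent.W977.VA.PDer
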